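import Mathlib

/-!
# Polytopes given by their vertices and the space of affine functions on the vertices

`ι` is the finite set of the vertices of a polytope `P` and `W` is the space of the restrictions
to the vertices of the affine functions. Everything below is linear algebra in `W`.
For a `4`-dimensional polytope `W` has dimension `5`.
-/

namespace Pool.Agent.Helper98.G4

open Finset

variable {ι : Type*}

/-- `W` contains the constants, and each point of `ι` is a vertex. -/
structure IsPoly (W : Submodule ℝ (ι → ℝ)) : Prop where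
  one_mem : (fun _ => (1 : ℝ)) ∈ W
  expo : ∀ i, ∃ f ∈ W, f i = 0 ∧ ∀ j, j ≠ i → 0 < f j

/-- The set `F` of vertices is the vertex set of a face (the empty set and everything allowed). -/
def IsFace (W : Submodule ℝ (ι → ℝ)) (F : Finset ι) : Prop :=
  ∃ f ∈ W, (∀ i, 0 ≤ f i) ∧ ∀ i, i ∈ F ↔ f i = 0

/-- The vertices `i` and `j` span an edge. -/
def IsEdge (W : Submodule ℝ (ι → ℝ)) (i j : ι) : Prop :=
  i ≠ j ∧ ∃ f ∈ W, f i = 0 ∧ f j = 0 ∧ ∀ k, k ≠ i → k ≠ j → 0 < f k

/-- `T` is the vertex set of a two-dimensional face. -/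
def TwoFace (W : Submodule ℝ (ι → ℝ)) (T : Finset ι) : Prop :=
  IsFace W T ∧ (∃ i ∈ T, ∃ j ∈ T, ∃ k ∈ T, i ≠ j ∧ i ≠ k ∧ j ≠ k) ∧
    ∀ i ∈ T, ∀ j ∈ T, ∀ k ∈ T, i ≠ j → i ≠ k → j ≠ k →
      ∀ f ∈ W, f i = 0 → f j = 0 → f k = 0 → ∀ l ∈ T, f l = 0

/-- `x` is a simple vertex, and its four neighbours are `n 0, n 1, n 2, n 3`. -/
def Simple (W : Submodule ℝ (ι → ℝ)) (x : ι) (n : Fin 4 → ι) : Prop :=
  Function.Injective n ∧ ∀ y, IsEdge W x y ↔ ∃ a, n a = y

/-- An injective rank function on the vertices that comes from a linear or projective function: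
each vertex that is not the top of all vertices has a function in `W` that vanishes there, is
negative below and positive above. -/
structure Rank (W : Submodule ℝ (ι → ℝ)) (ρ : ι → ℝ) : Prop where
  inj : Function.Injective ρ
  sep : ∀ x, (∃ C ∈ W, C x = 0 ∧ ∀ y, (ρ y < ρ x → C y < 0) ∧ (ρ x < ρ y → 0 < C y)) ∨
    ∀ y, ρ y ≤ ρ x

end Pool.Agent.Helper98.G4

/-! ### Families of two-dimensional faces and orientations -/

namespace Pool.Agent.Helper98.G4

open Finset

variable {ι : Type*}

open Classical in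
/-- The neighbours of `x` in `T`. -/
noncomputable def nbF (Adj : ι → ι → Prop) (T : Finset ι) (x : ι) : Finset ι :=
  T.filter fun y => Adj x y

/-- `x` is a sink of `T` for the rank function `ρ`. -/
def Sink (Adj : ι → ι → Prop) (ρ : ι → ℝ) (T : Finset ι) (x : ι) : Prop :=
  x ∈ T ∧ ∀ y ∈ T, Adj x y → ρ y < ρ x

/-- Each member of the family has at most one sink. -/
def Good (Adj : ι → ι → Prop) (ρ : ι → ℝ) (𝓕 : Finset (Finset ι)) : Prop :=
  ∀ T ∈ 𝓕, ∀ x y, Sink Adj ρ T x → Sink Adj ρ T y → x = y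

/-- `ρ` is injective, `q` is the lowest and `q'` the highest vertex. -/
structure Between (q q' : ι) (ρ : ι → ℝ) : Prop where
  inj : Function.Injective ρ
  bot : ∀ y, y ≠ q → ρ q < ρ y
  top : ∀ y, y ≠ q' → ρ y < ρ q'

/-- A family of cycles in a graph with two poles `q`, `q'`; away from the poles a member of the
family is determined by a vertex of it and the two neighbours there. -/
structure Fam (Adj : ι → ι → Prop) (q q' : ι) (𝓕 : Finset (Finset ι)) : Prop where
  nonempty : ∀ T ∈ 𝓕, T.Nonempty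
  two : ∀ T ∈ 𝓕, ∀ x ∈ T, (nbF Adj T x).card = 2
  inj : ∀ T ∈ 𝓕, ∀ S ∈ 𝓕, ∀ x ∈ T, x ∈ S → x ≠ q → x ≠ q' → nbF Adj T x = nbF Adj S x → T = S

end Pool.Agent.Helper98.G4
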